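import Pool.Agent.Lib_MP_5f1df6_ins.Core

/-! The adjacency matrix of a Cayley graph over `(ZMod 5)^4`, its diagonalisation by characters
and the exponential `exp (i t A)`. -/

set_option autoImplicit false

open Matrix

namespace Pool.Agent.Lib_MP_5f1df6_ins

/-- the group `(ZMod 5)^4` -/
abbrev G4 : Type := Fin 4 → ZMod 5

lemma ip_add (a c y : G4) : ip (a + c) y = ip a y + ip c y := by
  simp [ip, add_mul, Finset.sum_add_distrib]

lemma ip_neg (a y : G4) : ip (-a) y = -(ip a y) := by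
  simp [ip, Finset.sum_neg_distrib]

/-- orthogonality of the characters -/
lemma sum_char (x : G4) : ∑ y : G4, e (ip x y) = if x = 0 then 625 else 0 := by
  have h1 : ∀ y : G4, e (ip x y) = ∏ j, e (x j * y j) := fun y => by
    simp only [ip, Fin.sum_univ_four, Fin.prod_univ_four, AddChar.map_add_eq_mul]
  have h2 : ∑ y : G4, ∏ j, e (x j * y j) = ∏ j : Fin 4, ∑ s : ZMod 5, e (x j * s) := by
    rw [Finset.prod_univ_sum]
    simp [Fintype.piFinset_univ]
  rw [Finset.sum_congr rfl fun y _ => h1 y, h2]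
  by_cases hx : x = 0
  · subst hx
    simp
    norm_num
  · rw [if_neg hx]
    obtain ⟨j, hj⟩ : ∃ j, x j ≠ 0 := by
      by_contra hc
      exact hx (funext fun j => by_contra fun h => hc ⟨j, h⟩)
    exact Finset.prod_eq_zero (Finset.mem_univ j) (by rw [sum_all, if_neg hj])

/-- the character table -/
noncomputable def F : Matrix G4 G4 ℂ := Matrix.of fun a y => e (ip a y)

lemma F_mul : F * ((1 / 625 : ℂ) • Fᴴ) = 1 := by
  ext a b
  have h1 : ∀ y : G4, e (ip a y) * (starRingEnd ℂ) (e (ip b y)) = e (ip (a + -b) y) := by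
    intro y
    rw [← AddChar.map_neg_eq_conj, ← AddChar.map_add_eq_mul, ip_add, ip_neg]
  rw [Matrix.mul_smul, Matrix.smul_apply, Matrix.mul_apply]
  simp only [F, Matrix.conjTranspose_apply, Matrix.of_apply]
  have h2 : ∑ y : G4, e (ip a y) * star (e (ip b y)) = ∑ y : G4, e (ip (a + -b) y) :=
    Finset.sum_congr rfl fun y _ => h1 y
  rw [h2, sum_char, Matrix.one_apply]
  by_cases hab : a = b
  · subst hab
    simp
  · rw [if_neg hab, if_neg (fun h => hab (by simpa [add_neg_eq_zero] using h))]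
    simp

lemma F_inv : F⁻¹ = (1 / 625 : ℂ) • Fᴴ := Matrix.inv_eq_right_inv F_mul

lemma F_unit : IsUnit F := by
  rw [Matrix.isUnit_iff_isUnit_det]
  exact Matrix.isUnit_det_of_right_inverse F_mul

/-- the eigenvalue of the character `y` -/
noncomputable def lam (y : G4) : ℂ := ∑ v ∈ C, e (ip v y)

/-- any matrix with the entries of the adjacency matrix -/
lemma A_mul_F (A : Matrix G4 G4 ℂ) (hA : ∀ a b, A a b = if b - a ∈ C then 1 else 0) :
    A * F = F * Matrix.diagonal lam := by
  ext a y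
  rw [Matrix.mul_diagonal, Matrix.mul_apply]
  simp only [hA, F, Matrix.of_apply, ite_mul, one_mul, zero_mul]
  rw [lam, Finset.mul_sum, ← Finset.sum_filter]
  refine Finset.sum_bij' (fun b _ => b - a) (fun c _ => a + c) ?_ ?_ ?_ ?_ ?_
  · intro b hb
    exact (Finset.mem_filter.1 hb).2
  · intro c hc
    exact Finset.mem_filter.2 ⟨Finset.mem_univ _, by simpa using hc⟩
  · intro b _
    simp
  · intro c _
    simp
  · intro b _
    rw [← AddChar.map_add_eq_mul, ← ip_add]
    simp

lemma A_eq (A : Matrix G4 G4 ℂ) (hA : ∀ a b, A a b = if b - a ∈ C then 1 else 0) :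
    A = F * Matrix.diagonal lam * F⁻¹ := by
  rw [← A_mul_F A hA, Matrix.mul_assoc, Matrix.mul_nonsing_inv _ ((Matrix.isUnit_iff_isUnit_det _).1 F_unit),
    Matrix.mul_one]

lemma exp_entry (A : Matrix G4 G4 ℂ) (hA : ∀ a b, A a b = if b - a ∈ C then 1 else 0) (z : ℂ)
    (a b : G4) : NormedSpace.exp (z • A) a b =
      (1 / 625) * ∑ y : G4, Complex.exp (z * lam y) * e (∑ j, (a - b) j * y j) := by
  have h1 : z • A = F * Matrix.diagonal (z • lam) * F⁻¹ := by
    rw [A_eq A hA, Matrix.diagonal_smul, Matrix.mul_smul, Matrix.smul_mul]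
  rw [h1, Matrix.exp_conj _ _ F_unit, Matrix.exp_diagonal, F_inv, Matrix.mul_smul,
    Matrix.smul_apply, Matrix.mul_apply, smul_eq_mul]
  congr 1
  refine Finset.sum_congr rfl fun y _ => ?_
  rw [Matrix.mul_diagonal, Matrix.conjTranspose_apply, F, Matrix.of_apply, Matrix.of_apply]
  have h2 : star (e (ip b y)) = e (ip (-b) y) := by
    rw [ip_neg, AddChar.map_neg_eq_conj]
    rfl
  have h3 : (NormedSpace.exp (z • lam)) y = Complex.exp (z * lam y) := by
    rw [Pi.coe_exp, Pi.smul_apply, smul_eq_mul, Complex.exp_eq_exp_ℂ]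
  rw [h2, h3, mul_comm (e (ip a y)), mul_assoc, ← AddChar.map_add_eq_mul, ← ip_add,
    ← sub_eq_add_neg]
  rfl

/-- the walk at the time `- tt` -/
lemma norm_entry_neg (A : Matrix G4 G4 ℂ) (hA : ∀ a b, A a b = if b - a ∈ C then 1 else 0)
    (a b : G4) : ‖NormedSpace.exp ((-(Complex.I * (tt : ℂ))) • A) a b‖ = 1 / 25 := by
  rw [exp_entry A hA, norm_mul]
  have h := norm_S (a - b)
  have h1 : ∀ y : G4, Complex.exp (-(Complex.I * (tt : ℂ)) * lam y) =
      Complex.exp (-(Complex.I * (tt : ℂ) * ∑ v ∈ C, e (∑ j, v j * y j))) := by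
    intro y
    rw [neg_mul]
    rfl
  simp only [h1]
  rw [h]
  norm_num

lemma A_herm (A : Matrix G4 G4 ℂ) (hA : ∀ a b, A a b = if b - a ∈ C then 1 else 0) :
    Aᴴ = A := by
  ext a b
  rw [Matrix.conjTranspose_apply, hA, hA]
  have h : a - b ∈ C ↔ b - a ∈ C := by
    constructor
    · intro h
      simpa using C_neg _ h
    · intro h
      simpa using C_neg _ h
  by_cases hc : b - a ∈ C
  · rw [if_pos hc, if_pos (h.2 hc)]
    simp
  · rw [if_neg hc, if_neg (fun h' => hc (h.1 h'))]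
    simp

/-- the walk at the time `tt` -/
lemma norm_entry (A : Matrix G4 G4 ℂ) (hA : ∀ a b, A a b = if b - a ∈ C then 1 else 0)
    (a b : G4) : ‖NormedSpace.exp ((Complex.I * (tt : ℂ)) • A) a b‖ = 1 / 25 := by
  have h1 : (Complex.I * (tt : ℂ)) • A = ((-(Complex.I * (tt : ℂ))) • A)ᴴ := by
    rw [Matrix.conjTranspose_smul, A_herm A hA]
    congr 1
    simp
  rw [h1, Matrix.exp_conjTranspose, Matrix.conjTranspose_apply, norm_star, norm_entry_neg A hA]

/-- the character `e0` is an eigenvector -/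
lemma eig (A : Matrix G4 G4 ℂ) (hA : ∀ a b, A a b = if b - a ∈ C then 1 else 0) :
    A.mulVec (fun a => e (ip a e0)) = lam e0 • (fun a => e (ip a e0)) := by
  funext a
  have h := congrFun (congrFun (A_mul_F A hA) a) e0
  rw [Matrix.mul_diagonal, Matrix.mul_apply] at h
  simp only [F, Matrix.of_apply] at h
  rw [Matrix.mulVec, dotProduct, h, Pi.smul_apply, smul_eq_mul, mul_comm]

lemma N_e0 : N e0 = 10 := by decide

lemma lam_e0 : lam e0 = (((39 + Real.sqrt 5) / 2 : ℝ) : ℂ) := by
  have h := lam_eq e0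
  rw [N_e0] at h
  have h1 : e0 0 = 1 := rfl
  rw [h1] at h
  have h2 : e (1 : ZMod 5) + e (-1 : ZMod 5) = ((2 * Real.cos (2 * Real.pi / 5) : ℝ) : ℂ) := by
    have h3 := ZMod.stdAddChar_coe (N := 5) (1 : ℤ)
    have h4 := ZMod.stdAddChar_coe (N := 5) (-1 : ℤ)
    push_cast at h3 h4
    rw [h3, h4]
    push_cast
    rw [Complex.two_cos]
    refine congrArg₂ (· + ·) (congrArg Complex.exp ?_) (congrArg Complex.exp ?_)
    · ring
    · ring
  have h5 : Real.cos (2 * Real.pi / 5) = (Real.sqrt 5 - 1) / 4 := by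
    have h6 : 2 * Real.pi / 5 = 2 * (Real.pi / 5) := by ring
    rw [h6, Real.cos_two_mul, Real.cos_pi_div_five]
    have h7 : Real.sqrt 5 ^ 2 = 5 := Real.sq_sqrt (by norm_num)
    ring_nf
    rw [h7]
    ring
  rw [h2, h5] at h
  have h8 : lam e0 = ∑ v ∈ C, e (∑ j, v j * e0 j) := rfl
  rw [h8, h]
  push_cast
  ring

lemma card_C : C.card = 122 := by
  rw [C, Finset.card_insert_of_notMem, Finset.card_insert_of_notMem ne0_notMem,
    Finset.card_image_of_injOn phi_inj, D, Finset.card_product, Finset.card_product]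
  · have h1 : U.card = 4 := by decide
    have h2 : T.card = 10 := by decide
    rw [h1, h2]
    simp
  · simp only [Finset.mem_insert, not_or]
    exact ⟨e0_ne, e0_notMem⟩

end Pool.Agent.Lib_MP_5f1df6_ins
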